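import Mathlib

open Filter Topology

namespace Pool.Agent.H10EN

/-- `p` divides `n` exactly once -/
def ExDiv (p n : ℕ) : Prop := p ∣ n ∧ ¬ p ^ 2 ∣ n

open Classical in
noncomputable def gP (a : ℕ → ℝ) (P : Finset ℕ) (n : ℕ) : ℝ :=
  ∏ p ∈ P, (if ExDiv p n then a p else 1)

lemma gP_nonneg {a : ℕ → ℝ} (ha : ∀ n, 0 ≤ a n) (P : Finset ℕ) (n : ℕ) : 0 ≤ gP a P n := by
  unfold gP
  refine Finset.prod_nonneg fun p _ => ?_
  split_ifs
  · exact ha p
  · norm_num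

lemma exDiv_mul_left {p d n : ℕ} (hp : p.Prime) (hd : ¬ p ∣ d) : ExDiv p (d * n) ↔ ExDiv p n := by
  have hc : Nat.Coprime p d := (Nat.Prime.coprime_iff_not_dvd hp).2 hd
  have h1 : p ∣ d * n ↔ p ∣ n := Nat.Coprime.dvd_mul_left hc
  have h2 : p ^ 2 ∣ d * n ↔ p ^ 2 ∣ n := Nat.Coprime.dvd_mul_left (Nat.Coprime.pow_left 2 hc)
  unfold ExDiv
  rw [h1, h2]

lemma gP_mul {a : ℕ → ℝ} {P : Finset ℕ} (hP : ∀ p ∈ P, p.Prime) {d : ℕ}
    (hd : ∀ p ∈ P, ¬ p ∣ d) (n : ℕ) : gP a P (d * n) = gP a P n := by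
  unfold gP
  refine Finset.prod_congr rfl fun p hp => ?_
  rw [exDiv_mul_left (hP p hp) (hd p hp)]

/-- sums over multiples -/
lemma sum_multiples (g : ℕ → ℝ) (d N : ℕ) (hd : 0 < d) :
    ∑ n ∈ Finset.Icc 1 N, (if d ∣ n then g n else 0) = ∑ m ∈ Finset.Icc 1 (N / d), g (d * m) := by
  rw [← Finset.sum_filter]
  symm
  refine Finset.sum_nbij' (fun m => d * m) (fun n => n / d) ?_ ?_ ?_ ?_ ?_
  · intro m hm
    simp only [Finset.mem_Icc, Finset.mem_filter] at hm ⊢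
    refine ⟨⟨?_, ?_⟩, dvd_mul_right _ _⟩
    · exact Nat.one_le_iff_ne_zero.2 (Nat.mul_ne_zero hd.ne' (by omega))
    · calc d * m ≤ d * (N / d) := Nat.mul_le_mul_left _ hm.2
        _ ≤ N := Nat.mul_div_le N d
  · intro n hn
    simp only [Finset.mem_Icc, Finset.mem_filter] at hn ⊢
    obtain ⟨⟨h1, h2⟩, h3⟩ := hn
    refine ⟨?_, Nat.div_le_div_right h2⟩
    exact Nat.div_pos (Nat.le_of_dvd h1 h3) hd
  · intro m _
    exact Nat.mul_div_cancel_left m hd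
  · intro n hn
    simp only [Finset.mem_Icc, Finset.mem_filter] at hn
    exact Nat.mul_div_cancel' hn.2
  · intro m _
    rfl

noncomputable def SP (a : ℕ → ℝ) (P : Finset ℕ) (N : ℕ) : ℝ := ∑ n ∈ Finset.Icc 1 N, gP a P n

lemma SP_insert {a : ℕ → ℝ} {P : Finset ℕ} (hP : ∀ p ∈ P, p.Prime) {q : ℕ} (hq : q.Prime)
    (hqP : q ∉ P) (N : ℕ) :
    SP a (insert q P) N = SP a P N - (1 - a q) * (SP a P (N / q) - SP a P (N / q ^ 2)) := by
  classical
  have hd1 : ∀ p ∈ P, ¬ p ∣ q := by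
    intro p hp hpq
    have := (Nat.prime_dvd_prime_iff_eq (hP p hp) hq).1 hpq
    exact hqP (this ▸ hp)
  have hd2 : ∀ p ∈ P, ¬ p ∣ q ^ 2 := by
    intro p hp hpq
    exact hd1 p hp ((hP p hp).dvd_of_dvd_pow hpq)
  have e1 : SP a P (N / q) = ∑ n ∈ Finset.Icc 1 N, (if q ∣ n then gP a P n else 0) := by
    rw [sum_multiples _ _ _ hq.pos]
    unfold SP
    exact Finset.sum_congr rfl fun m _ => (gP_mul hP hd1 m).symm
  have e2 : SP a P (N / q ^ 2) = ∑ n ∈ Finset.Icc 1 N, (if q ^ 2 ∣ n then gP a P n else 0) := by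
    rw [sum_multiples _ _ _ (pow_pos hq.pos 2)]
    unfold SP
    exact Finset.sum_congr rfl fun m _ => (gP_mul hP hd2 m).symm
  rw [e1, e2]
  unfold SP
  rw [← Finset.sum_sub_distrib, Finset.mul_sum, ← Finset.sum_sub_distrib]
  refine Finset.sum_congr rfl fun n _ => ?_
  have hg : gP a (insert q P) n = (if ExDiv q n then a q else 1) * gP a P n := by
    unfold gP
    rw [Finset.prod_insert hqP]
  rw [hg]
  by_cases h1 : q ∣ n
  · by_cases h2 : q ^ 2 ∣ n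
    · have : ¬ ExDiv q n := fun h => h.2 h2
      simp [this, h1, h2]
    · have : ExDiv q n := ⟨h1, h2⟩
      simp [this, h1, h2]
      ring
  · have h2 : ¬ q ^ 2 ∣ n := fun h => h1 (dvd_trans (dvd_pow_self q two_ne_zero) h)
    have : ¬ ExDiv q n := fun h => h1 h.1
    simp [this, h1, h2]

lemma tendsto_div_floor {S : ℕ → ℝ} {c : ℝ} (hS : Tendsto (fun N : ℕ => S N / N) atTop (𝓝 c))
    {d : ℕ} (hd : 0 < d) :
    Tendsto (fun N : ℕ => S (N / d) / N) atTop (𝓝 (c / d)) := by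
  have h1 : Tendsto (fun N : ℕ => N / d) atTop atTop := Nat.tendsto_div_const_atTop hd.ne'
  have h2 := hS.comp h1
  have h3 : Tendsto (fun N : ℕ => (((N / d : ℕ) : ℝ)) / (N : ℝ)) atTop (𝓝 (1 / d)) := by
    have hdR : (0:ℝ) < d := by exact_mod_cast hd
    have hlow : ∀ᶠ N : ℕ in atTop, 1 / (d:ℝ) - 1 / N ≤ ((N / d : ℕ) : ℝ) / N := by
      filter_upwards [eventually_gt_atTop 0] with N hN
      have hNR : (0:ℝ) < N := by exact_mod_cast hN
      have hlt : (N:ℝ) < d * (((N / d : ℕ) : ℝ) + 1) := by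
        have := Nat.lt_mul_div_succ N hd
        exact_mod_cast this
      rw [le_div_iff₀ hNR]
      have : (1 / (d:ℝ) - 1 / N) * N = N / d - 1 := by
        field_simp
      rw [this]
      have : (N:ℝ) / d < ((N / d : ℕ) : ℝ) + 1 := by
        rw [div_lt_iff₀ hdR]; linarith
      linarith
    have hup : ∀ᶠ N : ℕ in atTop, ((N / d : ℕ) : ℝ) / N ≤ 1 / (d:ℝ) := by
      filter_upwards [eventually_gt_atTop 0] with N hN
      have hNR : (0:ℝ) < N := by exact_mod_cast hN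
      rw [div_le_iff₀ hNR]
      have : ((N / d : ℕ) : ℝ) ≤ (N:ℝ) / d := Nat.cast_div_le
      calc ((N / d : ℕ) : ℝ) ≤ (N:ℝ) / d := this
        _ = 1 / (d:ℝ) * N := by ring
    have hl : Tendsto (fun N : ℕ => 1 / (d:ℝ) - 1 / (N:ℝ)) atTop (𝓝 (1 / d)) := by
      have := (tendsto_const_nhds (x := 1 / (d:ℝ))).sub (tendsto_one_div_atTop_nhds_zero_nat (𝕜 := ℝ))
      simpa using this
    exact tendsto_of_tendsto_of_tendsto_of_le_of_le' hl tendsto_const_nhds hlow hup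
  have h4 := h2.mul h3
  have h5 : c * (1 / (d:ℝ)) = c / d := by ring
  rw [h5] at h4
  refine h4.congr' ?_
  filter_upwards [eventually_ge_atTop d] with N hN
  have : ((N / d : ℕ) : ℝ) ≠ 0 := by
    have : 0 < N / d := Nat.div_pos hN hd
    exact_mod_cast this.ne'
  simp only [Function.comp]
  field_simp

theorem SP_tendsto {a : ℕ → ℝ} {P : Finset ℕ} (hP : ∀ p ∈ P, p.Prime) :
    Tendsto (fun N : ℕ => SP a P N / N) atTop
      (𝓝 (∏ p ∈ P, (1 - (1 - a p) * (1 / p - 1 / (p:ℝ) ^ 2)))) := by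
  classical
  induction P using Finset.induction_on with
  | empty =>
    simp only [Finset.prod_empty]
    refine tendsto_const_nhds.congr' ?_
    filter_upwards [eventually_gt_atTop 0] with N hN
    have : (N:ℝ) ≠ 0 := by exact_mod_cast hN.ne'
    simp [SP, gP, this]
  | insert q P hqP ih =>
    have hP' : ∀ p ∈ P, p.Prime := fun p hp => hP p (Finset.mem_insert_of_mem hp)
    have hq : q.Prime := hP q (Finset.mem_insert_self q P)
    have ih' := ih hP'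
    have t1 := tendsto_div_floor ih' hq.pos
    have t2 := tendsto_div_floor ih' (pow_pos hq.pos 2)
    have t3 := ih'.sub ((t1.sub t2).const_mul (1 - a q))
    rw [Finset.prod_insert hqP]
    have hval : (∏ p ∈ P, (1 - (1 - a p) * (1 / p - 1 / (p:ℝ) ^ 2))) -
        (1 - a q) * ((∏ p ∈ P, (1 - (1 - a p) * (1 / p - 1 / (p:ℝ) ^ 2))) / (q:ℝ) -
          (∏ p ∈ P, (1 - (1 - a p) * (1 / p - 1 / (p:ℝ) ^ 2))) / ((q ^ 2 : ℕ) : ℝ)) =
        (1 - (1 - a q) * (1 / q - 1 / (q:ℝ) ^ 2)) *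
          ∏ p ∈ P, (1 - (1 - a p) * (1 / p - 1 / (p:ℝ) ^ 2)) := by
      push_cast
      ring
    rw [hval] at t3
    refine t3.congr fun N => ?_
    rw [SP_insert hP' hq hqP]
    ring


/-- pointwise bound -/
lemma norm_le_gP {F : ℕ → ℂ} (hmul : ∀ m n, Nat.Coprime m n → F (m * n) = F m * F n)
    (hb : ∀ n, ‖F n‖ ≤ 1) {P : Finset ℕ} (hP : ∀ p ∈ P, p.Prime) (n : ℕ) :
    ‖F n‖ ≤ gP (fun p => ‖F p‖) P n := by
  classical
  induction P using Finset.induction_on generalizing n with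
  | empty => simpa [gP] using hb n
  | insert q P hqP ih =>
    have hP' : ∀ p ∈ P, p.Prime := fun p hp => hP p (Finset.mem_insert_of_mem hp)
    have hq : q.Prime := hP q (Finset.mem_insert_self q P)
    have hg : gP (fun p => ‖F p‖) (insert q P) n =
        (if ExDiv q n then ‖F q‖ else 1) * gP (fun p => ‖F p‖) P n := by
      unfold gP
      rw [Finset.prod_insert hqP]
    rw [hg]
    by_cases h : ExDiv q n
    · rw [if_pos h]
      obtain ⟨m, rfl⟩ := h.1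
      have hqm : ¬ q ∣ m := by
        intro hqm
        apply h.2
        rw [pow_two]
        exact Nat.mul_dvd_mul_left q hqm
      have hc : Nat.Coprime q m := (Nat.Prime.coprime_iff_not_dvd hq).2 hqm
      rw [hmul q m hc, norm_mul]
      have hd1 : ∀ p ∈ P, ¬ p ∣ q := by
        intro p hp hpq
        have := (Nat.prime_dvd_prime_iff_eq (hP' p hp) hq).1 hpq
        exact hqP (this ▸ hp)
      rw [gP_mul hP' hd1]
      exact mul_le_mul_of_nonneg_left (ih hP' m) (norm_nonneg _)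
    · rw [if_neg h, one_mul]
      exact ih hP' n

/-- `∏ (1 - a_p (1/p - 1/p^2))` gets small. -/
lemma prod_small {b : ℕ → ℝ} (hb0 : ∀ n, 0 ≤ b n) (hb1 : ∀ n, b n ≤ 1)
    (hns : ¬ Summable (fun p : Nat.Primes => (1 - b p) / (p : ℝ))) {ε : ℝ} (hε : 0 < ε) :
    ∃ P : Finset ℕ, (∀ p ∈ P, p.Prime) ∧
      ∏ p ∈ P, (1 - (1 - b p) * (1 / p - 1 / (p:ℝ) ^ 2)) < ε := by
  classical
  have hnn : ∀ p : Nat.Primes, 0 ≤ (1 - b p) / (p : ℝ) := fun p =>
    div_nonneg (by linarith [hb1 p]) (by positivity)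
  -- partial sums are unbounded
  have hunb : ∀ C : ℝ, ∃ Q : Finset Nat.Primes, C < ∑ p ∈ Q, (1 - b p) / (p : ℝ) := by
    intro C
    by_contra hcon
    push Not at hcon
    exact hns (summable_of_sum_le hnn hcon)
  obtain ⟨Q, hQ⟩ := hunb (2 * Real.log (1 / ε))
  refine ⟨Q.map (Function.Embedding.subtype _), ?_, ?_⟩
  · intro p hp
    obtain ⟨r, _, rfl⟩ := Finset.mem_map.1 hp
    exact r.2
  · have e : ∏ p ∈ Q.map (Function.Embedding.subtype _),
        (1 - (1 - b p) * (1 / (p:ℝ) - 1 / (p:ℝ) ^ 2)) =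
        ∏ p ∈ Q, (1 - (1 - b p) * (1 / ((p : ℕ):ℝ) - 1 / ((p : ℕ):ℝ) ^ 2)) :=
      Finset.prod_map _ _ _
    rw [e]
    have hfac : ∀ p ∈ Q, (1 - (1 - b p) * (1 / (p:ℝ) - 1 / (p:ℝ) ^ 2)) ≤
        Real.exp (-(1/2) * ((1 - b p) / (p : ℝ))) := by
      intro p _
      have hp2 : (2:ℝ) ≤ (p:ℝ) := by exact_mod_cast p.2.two_le
      have hp0 : (0:ℝ) < (p:ℝ) := by linarith
      have h1 : (1:ℝ)/2 * (1 / (p:ℝ)) ≤ 1 / (p:ℝ) - 1 / (p:ℝ) ^ 2 := by
        have : 1 / (p:ℝ) ^ 2 = (1 / (p:ℝ)) * (1 / (p:ℝ)) := by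
          field_simp
        rw [this]
        have h3 : 1 / (p:ℝ) ≤ 1 / 2 := one_div_le_one_div_of_le (by norm_num) hp2
        have h4 : 0 < 1 / (p:ℝ) := by positivity
        nlinarith
      have h2 : 0 ≤ 1 - b p := by linarith [hb1 p]
      have h5 := mul_le_mul_of_nonneg_left h1 h2
      have h6 := Real.add_one_le_exp (-(1/2) * ((1 - b p) / (p : ℝ)))
      have h7 : (1 - b p) * ((1:ℝ)/2 * (1 / (p:ℝ))) = (1/2) * ((1 - b p) / (p : ℝ)) := by ring
      linarith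
    have hnn' : ∀ p ∈ Q, 0 ≤ (1 - (1 - b p) * (1 / (p:ℝ) - 1 / (p:ℝ) ^ 2)) := by
      intro p _
      have hp2 : (2:ℝ) ≤ (p:ℝ) := by exact_mod_cast p.2.two_le
      have h3 : 1 / (p:ℝ) ≤ 1 / 2 := one_div_le_one_div_of_le (by norm_num) hp2
      have h4 : 0 < 1 / (p:ℝ) := by positivity
      have h8 : 0 ≤ 1 / (p:ℝ) ^ 2 := by positivity
      have h2 : 0 ≤ 1 - b p := by linarith [hb1 p]
      have h2' : 1 - b p ≤ 1 := by linarith [hb0 p]
      have h9 : 1 / (p:ℝ) - 1 / (p:ℝ) ^ 2 ≤ 1 := by linarith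
      have h10 := mul_le_mul_of_nonneg_left h9 h2
      linarith
    calc ∏ p ∈ Q, (1 - (1 - b p) * (1 / (p:ℝ) - 1 / (p:ℝ) ^ 2))
        ≤ ∏ p ∈ Q, Real.exp (-(1/2) * ((1 - b p) / (p : ℝ))) := Finset.prod_le_prod hnn' hfac
      _ = Real.exp (-(1/2) * ∑ p ∈ Q, (1 - b p) / (p : ℝ)) := by
          rw [← Real.exp_sum, Finset.mul_sum]
      _ < Real.exp (-(1/2) * (2 * Real.log (1 / ε))) := by
          apply Real.exp_lt_exp.2
          linarith
      _ = ε := by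
          have : -(1/2 : ℝ) * (2 * Real.log (1 / ε)) = Real.log ε := by
            have hl : Real.log (1 / ε) = - Real.log ε := by rw [one_div, Real.log_inv]
            rw [hl]; ring
          rw [this, Real.exp_log hε]

/-- mean of `‖F‖` tends to zero -/
theorem mean_norm_tendsto {F : ℕ → ℂ} (hmul : ∀ m n, Nat.Coprime m n → F (m * n) = F m * F n)
    (hb : ∀ n, ‖F n‖ ≤ 1)
    (hns : ¬ Summable (fun p : Nat.Primes => (1 - ‖F p‖) / (p : ℝ))) :
    Tendsto (fun N : ℕ => (∑ n ∈ Finset.Icc 1 N, ‖F n‖) / (N : ℝ)) atTop (𝓝 0) := by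
  rw [Metric.tendsto_atTop]
  intro ε hε
  obtain ⟨P, hP, hlt⟩ := prod_small (b := fun n => ‖F n‖) (fun n => norm_nonneg _) hb hns hε
  have ht := SP_tendsto (a := fun n => ‖F n‖) hP
  have hev := ht.eventually (gt_mem_nhds hlt)
  obtain ⟨N0, hN0⟩ := eventually_atTop.1 hev
  refine ⟨N0, fun N hN => ?_⟩
  have h1 := hN0 N hN
  have h2 : (∑ n ∈ Finset.Icc 1 N, ‖F n‖) ≤ SP (fun n => ‖F n‖) P N :=
    Finset.sum_le_sum fun n _ => norm_le_gP hmul hb hP n
  have h3 : (∑ n ∈ Finset.Icc 1 N, ‖F n‖) / (N:ℝ) ≤ SP (fun n => ‖F n‖) P N / N :=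
    div_le_div_of_nonneg_right h2 (Nat.cast_nonneg N)
  have h4 : 0 ≤ (∑ n ∈ Finset.Icc 1 N, ‖F n‖) / (N:ℝ) := by positivity
  rw [Real.dist_eq, sub_zero, abs_of_nonneg h4]
  exact lt_of_le_of_lt h3 h1

end Pool.Agent.H10EN
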